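import Pool.Agent.H242R3.ES.StmtsN

/-! Task N10a of the project H242-ES. -/

set_option autoImplicit false

open MeasureTheory Finset
open scoped Classical

namespace Pool.Agent.H630R3.ES.N10a

open Pool.Agent.H242R3.ES

theorem B_sum {D : ℕ} {κ : Type} (s : Finset κ) (f : κ → LV D) (y : LV D) :
    B (∑ k ∈ s, f k) y = ∑ k ∈ s, B (f k) y := by
  induction s using Finset.induction_on with
  | empty => simp [B]
  | insert a s ha ih =>
    rw [Finset.sum_insert ha, Finset.sum_insert ha, ← ih]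
    simp only [B, Pi.add_apply, add_mul, Finset.sum_add_distrib]
    ring

theorem B_comm {D : ℕ} (x y : LV D) : B x y = B y x := by
  simp only [B, mul_comm]

theorem neg_FA {n : ℕ} {ι : Type} [Fintype ι] {X : ι → LV n} (hX : NC n X) {j : ι} {T : Set ι}
    (hT : T ∈ FA X j) : B (Y X T) (X j) < 0 := by
  obtain ⟨_, hj, hne, _⟩ := hT
  have h1 : ∃ k ∈ T, k ≠ j := by
    by_contra hc
    push Not at hc
    apply hne
    ext k
    exact ⟨fun hk => hc k hk, fun hk => by rw [Set.mem_singleton_iff.1 hk]; exact hj⟩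
  obtain ⟨k, hk, hkj⟩ := h1
  rw [Y, B_sum]
  refine Finset.sum_neg' (fun i _ => ?_) ⟨k, Finset.mem_filter.2 ⟨Finset.mem_univ _, hk⟩, hX.neg k j hkj⟩
  by_cases hij : i = j
  · rw [hij, hX.null]
  · exact (hX.neg i j hij).le

theorem t : TaskN10a := by
  intro hPM hTile h9 m hm ι _ X hX j o hcom
  have hfin : Module.finrank ℝ (LV (m + 1)) = m + 2 := by
    rw [Module.finrank_fintype_fun_eq_card, Fintype.card_option, Fintype.card_fin]
  have hjo : j ≠ o := by
    rintro rfl
    refine hcom ⟨{j}, hX.vert j, ?_, rfl, rfl⟩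
    intro hu
    have h1 : Set.range X ⊆ {X j} := by
      rintro _ ⟨i, rfl⟩
      have : i ∈ ({j} : Set ι) := by rw [hu]; trivial
      rw [Set.mem_singleton_iff.1 this]
      rfl
    have h2 : (⊤ : Submodule ℝ (LV (m + 1))) ≤ Submodule.span ℝ {X j} := by
      rw [← hX.span]
      exact Submodule.span_mono h1
    have h3 := Submodule.finrank_mono h2
    rw [finrank_top, hfin] at h3
    have h4 := finrank_span_le_card (R := ℝ) ({X j} : Set (LV (m + 1)))
    simp only [Set.toFinset_singleton, Finset.card_singleton] at h4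
    omega
  have hneg := hX.neg j o hjo
  obtain ⟨p, hsurj, hker, hin⟩ := h9 m (X j) (X o) (hX.null j) (hX.null o) hneg
  have h8 : Set8 X j (X o) m p := by
    refine ⟨hX.vert, hX.span, hfin, by omega, ?_, hsurj, hker⟩
    intro l hl hlj hl0
    refine lt_of_le_of_ne (hl o) fun h0 => ?_
    refine hcom ⟨{i | l (X i) = 0}, ⟨l, hl, fun i => Iff.rfl⟩, ?_, hlj, h0.symm⟩
    intro hu
    apply hl0
    have h1 : (⊤ : Submodule ℝ (LV (m + 1))) ≤ LinearMap.ker l := by
      rw [← hX.span, Submodule.span_le]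
      rintro _ ⟨i, rfl⟩
      have : i ∈ {i | l (X i) = 0} := by rw [hu]; trivial
      exact this
    exact LinearMap.ext fun x => h1 Submodule.mem_top
  set d : Set ι → ℝ := fun T => -(B (Y X T) (X j))⁻¹ with hd
  have hFA : ∀ s ∈ Fl X j m, ∀ T ∈ s, B (Y X T) (X j) < 0 := fun s hs T hT =>
    neg_FA hX ((Finset.mem_filter.1 hs).2.2.1 T hT)
  have hdpos : ∀ s ∈ Fl X j m, ∀ T ∈ s, 0 < d T := by
    intro s hs T hT
    have := inv_lt_zero.2 (hFA s hs T hT)
    simp only [hd]
    linarith
  obtain ⟨hli, hsum⟩ := hTile ι (LV (m + 1)) X j (X o) m p h8 d hdpos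
  have key : ∀ s ∈ Fl X j m, ∀ T ∈ s, ∀ T' ∈ s, gq (qq X j) (Fq X j o) T T' =
      inner ℝ (d T • p (Y X T)) (d T' • p (Y X T')) := by
    intro s hs T hT T' hT'
    have h1 := (hFA s hs T hT).ne
    have h2 := (hFA s hs T' hT').ne
    have h3 := hneg.ne
    rw [real_inner_smul_left, real_inner_smul_right, hin]
    simp only [gq, Fq, qq, hd]
    field_simp
    ring
  have hGM : ∀ s ∈ Fl X j m, GMq (qq X j) s (Fq X j o) = GU s (fun T => d T • p (Y X T)) := by
    intro s hs
    ext i k
    exact key s hs i i.2 k k.2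
  refine ⟨fun s hs => ?_, ?_⟩
  · rw [hGM s hs]
    exact Matrix.posDef_gram_of_linearIndependent (hli s hs)
  · rw [← hsum]
    refine Finset.sum_congr rfl fun s hs => ?_
    unfold omq
    rw [hGM s hs]
    congr 1
    refine integral_congr_ae (Filter.Eventually.of_forall fun x => ?_)
    simp only [exq]
    congr 2
    refine Finset.sum_congr rfl fun i _ => Finset.sum_congr rfl fun k _ => ?_
    rw [key s hs i i.2 k k.2]

end Pool.Agent.H630R3.ES.N10a
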